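import Pool.Agent.W363.JQ.Stm
import Pool.Agent.Helper499.ArcJWinding

set_option autoImplicit false
open Filter Topology Set Metric

namespace Pool.Agent.W427.JQ

open Pool.Agent.W363.JQ

theorem it_succ (f : Polynomial ℂ) (n : ℕ) (z : ℂ) : it f (n + 1) z = f.eval (it f n z) :=
  Function.iterate_succ_apply' _ _ _

theorem it_add (f : Polynomial ℂ) (a b : ℕ) (z : ℂ) : it f a (it f b z) = it f (a + b) z :=
  (Function.iterate_add_apply _ _ _ _).symm

theorem it_mem {f : Polynomial ℂ} (hB : Bas f) {z : ℂ} (hz : z ∈ KK f) (n : ℕ) :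
    it f n z ∈ KK f := by
  induction n with
  | zero => exact hz
  | succ n ih =>
    rw [it_succ]
    exact (hB.invK _).mpr ih

theorem pcK : S_pcK := by
  intro f Φ hB hΦ
  have hcl : IsClosed (KK f) := hB.cpt.isClosed
  apply closure_minimal _ hcl
  intro z hz
  simp only [mem_iUnion, mem_range, exists_prop] at hz
  obtain ⟨c, hc, n, rfl⟩ := hz
  have hc' : f.derivative.eval c = 0 := hc
  apply it_mem hB _ n
  by_contra hcK
  have hmem : c ∈ (KK f)ᶜ := hcK
  rw [← hΦ.img] at hmem
  obtain ⟨w, hw, hwc⟩ := hmem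
  have hw1 : 1 < ‖w‖ := hw
  have hopen : IsOpen {w : ℂ | 1 < ‖w‖} := isOpen_lt continuous_const continuous_norm
  have hd := hB.deg
  have hwd : 1 < ‖w ^ f.natDegree‖ := by
    rw [norm_pow]
    exact one_lt_pow₀ hw1 (by omega)
  have hd1 : HasDerivAt Φ (deriv Φ w) w :=
    (hΦ.dif.differentiableAt (hopen.mem_nhds hw)).hasDerivAt
  have hd2 : HasDerivAt Φ (deriv Φ (w ^ f.natDegree)) (w ^ f.natDegree) :=
    (hΦ.dif.differentiableAt (hopen.mem_nhds hwd)).hasDerivAt
  have e1 : HasDerivAt (fun u => f.eval (Φ u)) (f.derivative.eval (Φ w) * deriv Φ w) w :=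
    (f.hasDerivAt (Φ w)).comp w hd1
  have e2 : HasDerivAt (fun u : ℂ => Φ (u ^ f.natDegree))
      (deriv Φ (w ^ f.natDegree) * (f.natDegree * w ^ (f.natDegree - 1))) w :=
    HasDerivAt.comp w hd2 (hasDerivAt_pow f.natDegree w)
  have e3 : (fun u => f.eval (Φ u)) =ᶠ[𝓝 w] fun u : ℂ => Φ (u ^ f.natDegree) := by
    filter_upwards [hopen.mem_nhds hw] with u hu
    exact hΦ.conj u hu
  have e4 := (e1.congr_of_eventuallyEq e3.symm).unique e2
  rw [hwc, hc', zero_mul] at e4
  have h5 := Pool.Agent.Helper499.ArcJ.wnd_deriv_ne_zero_of_injOn hopen hΦ.dif hΦ.inj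
    (show w ^ f.natDegree ∈ {w : ℂ | 1 < ‖w‖} from hwd)
  have hw0 : w ≠ 0 := by
    rintro rfl
    simp at hw1
    linarith
  have hdC : (f.natDegree : ℂ) ≠ 0 := by exact_mod_cast (by omega : f.natDegree ≠ 0)
  exact mul_ne_zero h5 (mul_ne_zero hdC (pow_ne_zero _ hw0)) e4.symm

theorem per : S_per := by
  intro f hB hH hPC
  have hcl : IsClosed (KK f) := hB.cpt.isClosed
  obtain ⟨W, hW⟩ : ∃ W, W = interior (KK f) := ⟨_, rfl⟩
  have hWo : IsOpen W := by rw [hW]; exact isOpen_interior
  have hWK : W ⊆ KK f := by rw [hW]; exact interior_subset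
  have hJ : ∀ z, z ∈ JJ f ↔ z ∈ KK f ∧ z ∉ W := by
    intro z
    unfold JJ
    rw [hcl.frontier_eq, hW]
    rfl
  have hWiff : ∀ z, z ∈ W ↔ z ∈ KK f ∧ z ∉ JJ f := by
    intro z
    rw [hJ z]
    constructor
    · intro h
      exact ⟨hWK h, fun h' => h'.2 h⟩
    · rintro ⟨h1, h2⟩
      by_contra h3
      exact h2 ⟨h1, h3⟩
  have hPCW : PC f ⊆ W := fun z hz =>
    (hWiff z).mpr ⟨hPC hz, fun h => Set.disjoint_left.mp hH.disj hz h⟩
  have hPCc : IsCompact (PC f) := hB.cpt.of_isClosed_subset isClosed_closure hPC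
  have hWf : ∀ z ∈ W, f.eval z ∈ W := by
    intro z hz
    have h1 := (hWiff z).mp hz
    exact (hWiff _).mpr ⟨(hB.invK z).mpr h1.1, fun h => h1.2 ((hB.invJ z).mp h)⟩
  have hWit : ∀ n, ∀ z ∈ W, it f n z ∈ W := by
    intro n z hz
    induction n with
    | zero => exact hz
    | succ n ih =>
      rw [it_succ]
      exact hWf _ ih
  -- a critical point
  obtain ⟨c, hc⟩ : ∃ c, f.derivative.eval c = 0 := by
    have hd := hB.deg
    have h1 : f.derivative.degree ≠ 0 := by
      rw [Polynomial.degree_derivative (by omega)]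
      intro h
      have : f.natDegree - 1 = 0 := by exact_mod_cast h
      omega
    obtain ⟨c, hc⟩ := IsAlgClosed.exists_root f.derivative h1
    exact ⟨c, hc⟩
  have hcn : ∀ n, it f n c ∈ PC f := by
    intro n
    apply subset_closure
    simp only [mem_iUnion, mem_range, exists_prop]
    exact ⟨c, hc, n, rfl⟩
  -- components
  obtain ⟨V, hV⟩ : ∃ V : ℂ → Set ℂ, V = fun x => connectedComponentIn W x := ⟨_, rfl⟩
  have hVo : ∀ x, IsOpen (V x) := fun x => by rw [hV]; exact hWo.connectedComponentIn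
  have hVW : ∀ x, V x ⊆ W := fun x => by rw [hV]; exact connectedComponentIn_subset _ _
  have hVx : ∀ x ∈ W, x ∈ V x := fun x hx => by rw [hV]; exact mem_connectedComponentIn hx
  have hVc : ∀ x ∈ W, IsConnected (V x) := fun x hx => by
    rw [hV]
    exact isConnected_connectedComponentIn_iff.mpr hx
  have hVe : ∀ x y, y ∈ V x → V x = V y := fun x y hy => by
    rw [hV] at hy ⊢
    exact connectedComponentIn_eq hy
  have hVf : ∀ x, frontier (V x) ⊆ JJ f := by
    intro x z hz
    rw [frontier, (hVo x).interior_eq] at hz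
    rw [hJ]
    refine ⟨?_, ?_⟩
    · have : closure (V x) ⊆ KK f := closure_minimal ((hVW x).trans hWK) hcl
      exact this hz.1
    · intro hzW
      obtain ⟨y, hy1, hy2⟩ := mem_closure_iff.mp hz.1 (V z) (hVo z) (hVx z hzW)
      have h1 := hVe z y hy1
      have h2 := hVe x y hy2
      apply hz.2
      rw [h2, ← h1]
      exact hVx z hzW
  -- finitely many components
  obtain ⟨t, -, ht⟩ := hPCc.elim_nhds_subcover V fun x hx => (hVo x).mem_nhds (hVx x (hPCW hx))
  have hsel : ∀ n, ∃ x : t, it f n c ∈ V x := by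
    intro n
    have := ht (hcn n)
    simp only [mem_iUnion, exists_prop] at this
    obtain ⟨x, hx, hx'⟩ := this
    exact ⟨⟨x, hx⟩, hx'⟩
  choose g hg using hsel
  obtain ⟨n, m, hnm, hgnm⟩ := Finite.exists_ne_map_eq_of_infinite g
  -- main
  have main : ∀ n m : ℕ, n < m → g n = g m → ∃ n : ℕ, 1 ≤ n ∧ ∃ U : Set ℂ, IsOpen U ∧
      IsConnected U ∧ U ⊆ KK f ∧ frontier U ⊆ JJ f ∧ ∀ z ∈ U, it f n z ∈ U := by
    intro n m hlt hgg
    have hVnm : V (it f n c) = V (it f m c) := by
      rw [← hVe _ _ (hg n), ← hVe _ _ (hg m), hgg]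
    have hcW : it f n c ∈ W := hPCW (hcn n)
    refine ⟨m - n, by omega, V (it f n c), hVo _, hVc _ hcW, (hVW _).trans hWK, hVf _, ?_⟩
    have himg : it f (m - n) '' V (it f n c) ⊆ V (it f m c) := by
      rw [hV]
      apply IsPreconnected.subset_connectedComponentIn
      · have hcont : Continuous (it f (m - n)) := f.continuous.iterate (m - n)
        have := (hVc _ hcW).isPreconnected.image (it f (m - n)) hcont.continuousOn
        rw [hV] at this
        exact this
      · refine ⟨it f n c, ?_, ?_⟩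
        · have := hVx _ hcW
          rw [hV] at this
          exact this
        · show it f (m - n) (it f n c) = it f m c
          rw [it_add]
          have : m - n + n = m := by omega
          rw [this]
      · rintro _ ⟨z, hz, rfl⟩
        exact hWit _ _ (connectedComponentIn_subset _ _ hz)
    intro z hz
    rw [hVnm]
    exact himg ⟨z, hz, rfl⟩
  rcases lt_or_gt_of_ne hnm with h | h
  · exact main n m h hgnm
  · exact main m n h hgnm.symm

end Pool.Agent.W427.JQ
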